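import Pool.Agent.helper7.DF.Spec

/-!
# Project DF, row IDD
-/

set_option autoImplicit false

open Finset

namespace Pool.Agent.DFO

private theorem IDD_succ (r : ℕ) : ∀ (f : ℕ → ℝ) (n : ℕ),
    Pool.Agent.UN.dd (r + 1) f n = Pool.Agent.UN.dd r f (n + 1) - Pool.Agent.UN.dd r f n := by
  induction r with
  | zero => intro f n; rfl
  | succ r ih =>
    intro f n
    have h := ih (fun m => f (m + 1) - f m) n
    exact h

private theorem IDD_prod (r n : ℕ) : ∏ i ∈ range (r + 2), ((n : ℝ) + i) =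
    (n : ℝ) * ∏ i ∈ range (r + 1), (((n + 1 : ℕ) : ℝ) + i) := by
  rw [Finset.prod_range_succ' (fun i : ℕ => (n : ℝ) + i) (r + 1)]
  rw [mul_comm]
  congr 1
  · simp
  · apply Finset.prod_congr rfl
    intro i _
    push_cast
    ring

private theorem IDD_form (y : ℝ) (r : ℕ) : ∀ n : ℕ, 1 ≤ n →
    Pool.Agent.UN.dd r (fun l : ℕ => y / (l : ℝ)) n * ∏ i ∈ range (r + 1), ((n : ℝ) + i) =
      (-1) ^ r * ((r.factorial : ℝ) * y) := by
  induction r with
  | zero =>
    intro n hn
    have hn' : (n : ℝ) ≠ 0 := by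
      have : n ≠ 0 := by omega
      exact_mod_cast this
    simp only [Pool.Agent.UN.dd]
    simp
    field_simp
  | succ r ih =>
    intro n hn
    have h1 := ih n hn
    have h2 := ih (n + 1) (by omega)
    rw [IDD_succ]
    rw [sub_mul]
    rw [IDD_prod r n]
    have h3 : Pool.Agent.UN.dd r (fun l : ℕ => y / (l : ℝ)) (n + 1) *
        ((n : ℝ) * ∏ i ∈ range (r + 1), (((n + 1 : ℕ) : ℝ) + i)) = (n : ℝ) * ((-1) ^ r * ((r.factorial : ℝ) * y)) := by
      rw [← h2]; ring
    rw [h3, ← IDD_prod r n, Finset.prod_range_succ]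
    have h4 : Pool.Agent.UN.dd r (fun l : ℕ => y / (l : ℝ)) n *
        ((∏ i ∈ range (r + 1), ((n : ℝ) + i)) * ((n : ℝ) + ((r + 1 : ℕ) : ℝ))) =
        ((-1) ^ r * ((r.factorial : ℝ) * y)) * ((n : ℝ) + ((r + 1 : ℕ) : ℝ)) := by
      rw [← h1]; ring
    rw [h4, Nat.factorial_succ, pow_succ]
    push_cast
    ring

theorem IDD : IDD_stmt := by
  intro r N n y hN hy hn hr
  have hN' : (0 : ℝ) < N := by exact_mod_cast hN
  have hform := IDD_form y r n (by omega)
  set P : ℝ := ∏ i ∈ range (r + 1), ((n : ℝ) + i) with hP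
  have hnR : (N : ℝ) ≤ n := by exact_mod_cast hn
  have hP1 : (N : ℝ) ^ (r + 1) ≤ P := by
    have := Finset.prod_le_prod (s := range (r + 1)) (f := fun _ : ℕ => (N : ℝ)) (g := fun i : ℕ => (n : ℝ) + i)
      (fun i _ => hN'.le) (fun i _ => by
        have : (0 : ℝ) ≤ i := Nat.cast_nonneg i
        show (N : ℝ) ≤ (n : ℝ) + i
        linarith)
    simpa using this
  have hP2 : P ≤ (2 * (N : ℝ)) ^ (r + 1) := by
    have := Finset.prod_le_prod (s := range (r + 1)) (f := fun i : ℕ => (n : ℝ) + i) (g := fun _ : ℕ => 2 * (N : ℝ))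
      (fun i _ => by positivity) (fun i hi => by
        have h1 : i ≤ r := by
          have := Finset.mem_range.mp hi
          omega
        have h2 : n + i ≤ 2 * N := by omega
        show (n : ℝ) + i ≤ 2 * (N : ℝ)
        exact_mod_cast h2)
    simpa using this
  have hNp : (0 : ℝ) < (N : ℝ) ^ (r + 1) := by positivity
  have hPpos : 0 < P := lt_of_lt_of_le hNp hP1
  have hval : (-1) ^ r * Pool.Agent.UN.dd r (fun l : ℕ => y / (l : ℝ)) n = (r.factorial : ℝ) * y / P := by
    rw [eq_div_iff hPpos.ne', mul_assoc, hform, ← mul_assoc, ← mul_pow]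
    simp
  have hfy : (0 : ℝ) ≤ (r.factorial : ℝ) * y := by positivity
  rw [hval]
  constructor
  · exact div_le_div_of_nonneg_left hfy hPpos hP2
  · exact div_le_div_of_nonneg_left hfy hNp hP1

end Pool.Agent.DFO
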